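import Pool.Agent.Helper150.Cb.Upper
import Pool.Agent.Helper150.Cb.Lower

set_option autoImplicit false

namespace Pool.Agent.Results.MP_87d6b4_an.OptimalConstant

open scoped ENNReal

universe v

/-- `B(H)`: the bounded operators on the Hilbert space `H`. -/
def BH (H : Type v) [NormedAddCommGroup H] [InnerProductSpace ℂ H] : Type v := H →L[ℂ] H

/-- The operator norm of `B(H)`. -/
noncomputable instance instNormedBH (H : Type v) [NormedAddCommGroup H] [InnerProductSpace ℂ H] :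
    NormedAddCommGroup (BH H) :=
  ContinuousLinearMap.toNormedAddCommGroup (𝕜 := ℂ) (𝕜₂ := ℂ) (E := H) (F := H)
    (σ₁₂ := RingHom.id ℂ)

/-- The vector space structure of `B(H)`. -/
noncomputable instance instSpaceBH (H : Type v) [NormedAddCommGroup H] [InnerProductSpace ℂ H] :
    NormedSpace ℂ (BH H) :=
  ContinuousLinearMap.toNormedSpace (𝕜 := ℂ) (𝕜₂ := ℂ) (E := H) (F := H) (σ₁₂ := RingHom.id ℂ)

/-- The vector `T ξ`. -/
def BH.apply {H : Type v} [NormedAddCommGroup H] [InnerProductSpace ℂ H] (T : BH H) (ξ : H) : H :=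
  DFunLike.coe (F := H →L[ℂ] H) T ξ

/-- The norm of a `k × k` matrix of bounded operators on `H` as an operator on the Hilbert space
direct sum of `k` copies of `H`: the least `C ≥ 0` with
`∑ᵢ ‖∑ⱼ xᵢⱼ ξⱼ‖² ≤ C² ∑ⱼ ‖ξⱼ‖²` for all vectors `ξ`. -/
noncomputable def blockNorm {H : Type v} [NormedAddCommGroup H] [InnerProductSpace ℂ H] {k : ℕ}
    (x : Fin k → Fin k → BH H) : ℝ :=
  sInf {C : ℝ | 0 ≤ C ∧ ∀ ξ : Fin k → H,
    ∑ i, ‖∑ j, (x i j).apply (ξ j)‖ ^ 2 ≤ C ^ 2 * ∑ j, ‖ξ j‖ ^ 2}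

/-- An operator space: a closed subspace `E` of `B(H)` for a complex Hilbert space `H`. -/
structure OperatorSpace : Type (v + 1) where
  /-- the Hilbert space -/
  H : Type v
  /-- its norm -/
  [normed : NormedAddCommGroup H]
  /-- its inner product -/
  [inner : InnerProductSpace ℂ H]
  /-- it is complete -/
  [complete : CompleteSpace H]
  /-- the subspace of `B(H)` -/
  E : Submodule ℂ (BH H)
  /-- it is closed -/
  closed : IsClosed (E : Set (BH H))

attribute [instance] OperatorSpace.normed OperatorSpace.inner OperatorSpace.complete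

/-- The type of elements of an operator space. -/
def Elem (X : OperatorSpace.{v}) : Type v := X.E

/-- It carries the operator norm of `B(H)`. -/
noncomputable instance instNormedElem (X : OperatorSpace.{v}) : NormedAddCommGroup (Elem X) :=
  Submodule.normedAddCommGroup X.E

noncomputable instance instSpaceElem (X : OperatorSpace.{v}) : NormedSpace ℂ (Elem X) :=
  Submodule.normedSpace X.E

/-- An element of an operator space as an operator. -/
def toOp {X : OperatorSpace.{v}} (x : Elem X) : BH X.H := Subtype.val x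

/-- The norm of `M_k(E)`, induced from `M_k(B(H)) = B(H^k)`. -/
noncomputable def matNorm {X : OperatorSpace.{v}} {k : ℕ} (x : Fin k → Fin k → Elem X) : ℝ :=
  blockNorm fun i j => toOp (x i j)

/-- The norm of `u_k : M_k(E) → M_k(F)`, with values in `[0, ∞]`. -/
noncomputable def levelNorm {X Y : OperatorSpace.{v}} (u : Elem X →ₗ[ℂ] Elem Y) (k : ℕ) :
    ℝ≥0∞ :=
  ⨆ (x : Fin k → Fin k → Elem X) (_ : matNorm x ≤ 1), ENNReal.ofReal (matNorm fun i j => u (x i j))

/-- The completely bounded norm `‖u‖_cb = sup_k ‖u_k‖`, with values in `[0, ∞]`. -/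
noncomputable def cbNorm {X Y : OperatorSpace.{v}} (u : Elem X →ₗ[ℂ] Elem Y) : ℝ≥0∞ :=
  ⨆ (k : ℕ) (_ : 1 ≤ k), levelNorm u k

/-- The ordinary operator norm of `u`, with values in `[0, ∞]`. -/
noncomputable def ordNorm {X Y : OperatorSpace.{v}} (u : Elem X →ₗ[ℂ] Elem Y) : ℝ≥0∞ :=
  ⨆ (x : Elem X) (_ : ‖x‖ ≤ 1), ENNReal.ofReal ‖u x‖

/-- The property in the definition of `c*`: for every `n ≥ 2`, all operator spaces `E`, `F` and
every linear map `u : E → F` of rank at most `n`, `‖u‖_cb ≤ c n ‖u‖`. -/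
def RankBound (c : ℝ) : Prop :=
  ∀ n : ℕ, 2 ≤ n → ∀ X Y : OperatorSpace.{v}, ∀ u : Elem X →ₗ[ℂ] Elem Y,
    LinearMap.rank u ≤ n → cbNorm u ≤ ENNReal.ofReal c * n * ordNorm u

/-- The optimal constant `c*`. -/
noncomputable def cStar : ℝ := sInf {c : ℝ | 0 < c ∧ RankBound.{v} c}

theorem norm_opMatrix {H : Type v} [NormedAddCommGroup H] [InnerProductSpace ℂ H] {k : ℕ}
    (x : Matrix (Fin k) (Fin k) (H →L[ℂ] H)) :
    ‖Pool.Agent.Helper150.Cb.opMatrix x‖ = blockNorm x := by
  have happ : ∀ (ξ : PiLp 2 (fun _ : Fin k => H)) (i : Fin k),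
      Pool.Agent.Helper150.Cb.opMatrix x ξ i = ∑ j, x i j (ξ j) := by
    intro ξ i
    simp [Pool.Agent.Helper150.Cb.opMatrix]
  unfold blockNorm
  rw [ContinuousLinearMap.norm_def]
  congr 1
  ext C
  show (0 ≤ C ∧ _) ↔ (0 ≤ C ∧ _)
  constructor
  · rintro ⟨h0, h1⟩
    refine ⟨h0, fun ξ => ?_⟩
    have h2 := h1 (WithLp.toLp 2 ξ)
    have h3 := pow_le_pow_left₀ (norm_nonneg _) h2 2
    rw [mul_pow, PiLp.norm_sq_eq_of_L2, PiLp.norm_sq_eq_of_L2] at h3
    simpa [happ, BH.apply] using h3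
  · rintro ⟨h0, h1⟩
    refine ⟨h0, fun ξ => ?_⟩
    have h2 := h1 (fun i => ξ i)
    apply le_of_sq_le_sq _ (by positivity)
    rw [mul_pow, PiLp.norm_sq_eq_of_L2, PiLp.norm_sq_eq_of_L2]
    simpa [happ, BH.apply] using h2

theorem matNorm_eq {X : OperatorSpace.{v}} {k : ℕ} (x : Fin k → Fin k → Elem X) :
    matNorm x = Pool.Agent.Helper150.Cb.matNorm X.E x :=
  (norm_opMatrix _).symm

theorem levelNorm_eq {X Y : OperatorSpace.{v}} (u : Elem X →ₗ[ℂ] Elem Y) (k : ℕ) :
    levelNorm u k = Pool.Agent.Helper150.Cb.levelNorm (E := X.E) (F := Y.E) u k := by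
  unfold levelNorm Pool.Agent.Helper150.Cb.levelNorm
  simp only [matNorm_eq]
  rfl

theorem cbNorm_eq {X Y : OperatorSpace.{v}} (u : Elem X →ₗ[ℂ] Elem Y) :
    cbNorm u = Pool.Agent.Helper150.Cb.cbNorm (E := X.E) (F := Y.E) u := by
  unfold cbNorm Pool.Agent.Helper150.Cb.cbNorm
  simp only [levelNorm_eq]

theorem rankBound_iff (c : ℝ) :
    RankBound.{v} c ↔ Pool.Agent.Helper150.Cb.RankBound.{v} c := by
  constructor
  · intro h n hn H K _ _ _ _ _ _ E F hE hF u hu
    let X : OperatorSpace.{v} := { H := H, E := E, closed := hE }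
    let Y : OperatorSpace.{v} := { H := K, E := F, closed := hF }
    exact (le_of_eq (cbNorm_eq (X := X) (Y := Y) u).symm).trans (h n hn X Y u hu)
  · intro h n hn X Y u hu
    rw [cbNorm_eq]
    exact h n hn X.H Y.H X.E Y.E X.closed Y.closed u hu

/-- The optimal constant `c*` in the rank bound for completely bounded norms is `1 / √2`, and the
infimum in its definition is attained: every linear map `u` of rank at most `n`, `n ≥ 2`, between
operator spaces satisfies `‖u‖_cb ≤ (n / √2) ‖u‖`. -/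
theorem result : cStar.{v} = 1 / Real.sqrt 2 ∧ RankBound.{v} (1 / Real.sqrt 2) := by
  have h0 : RankBound.{v} (1 / Real.sqrt 2) :=
    (rankBound_iff _).2 Pool.Agent.Helper150.Cb.PartUpper.upper
  have h1 : 1 / Real.sqrt 2 ∈ {c : ℝ | 0 < c ∧ RankBound.{v} c} := ⟨by positivity, h0⟩
  refine ⟨le_antisymm ?_ ?_, h0⟩
  · exact csInf_le ⟨0, fun c hc => hc.1.le⟩ h1
  · exact le_csInf ⟨_, h1⟩ fun c hc =>
      Pool.Agent.Helper150.Cb.PartLower.lower c hc.1 ((rankBound_iff c).1 hc.2)

end Pool.Agent.Results.MP_87d6b4_an.OptimalConstant
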